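import Pool.Agent.Helper81_NJ.Tools

set_option autoImplicit false

/-!
# Squad NJ, module MUL
-/

namespace Pool.Agent.NJ.H81

/-- **MUL** -/
theorem mul : MULStmt := by
  intro e₂ e₃ d₁ d₂ r s w A B h l _ hl2 h2 h3 h33
  have hp : l.Prime := Fact.out
  have hpp := prime_int hp
  have hp0 : (l : ℤ) ≠ 0 := hpp.ne_zero
  constructor
  · intro hd
    have hr : (l : ℤ) ∣ r := by rw [h.h1]; exact Dvd.dvd.mul_right hd _
    have hs := not_dvd_s h hp hr
    have he : ¬ (l : ℤ) ∣ (-e₂) := by rwa [dvd_neg]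
    refine leg_eq (B := B) (s := s) he hs ?_
    rw [← h.h2]
    obtain ⟨u, rfl⟩ := hr
    exact ⟨u, by ring⟩
  · intro hd
    obtain ⟨g, rfl⟩ := h3
    have hg : ¬ (l : ℤ) ∣ g := by
      rintro ⟨u, rfl⟩
      exact h33 ⟨u, by ring⟩
    have hr : ¬ (l : ℤ) ∣ r := by
      intro hr
      have hs := not_dvd_s h hp hr
      have hA : (l : ℤ) ∣ A := by
        have : (l : ℤ) ∣ d₁ * A ^ 2 := by rwa [← h.h1]
        rcases hpp.dvd_or_dvd this with h4 | h4
        · exact absurd h4 hd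
        · exact hpp.dvd_of_dvd_pow h4
      obtain ⟨A', rfl⟩ := hA
      obtain ⟨c, hc⟩ := exists_c1 h
      have h1 := h.h1
      -- R₃ = l (l d₁ A'^2 - g s²)
      have hR3 : r - l * g * s ^ 2 = l * (l * d₁ * A' ^ 2 - g * s ^ 2) := by
        rw [h1]; ring
      rw [hR3] at hc
      have hcl : (l : ℤ) ∣ c := by
        apply hpp.dvd_of_dvd_pow (n := 2)
        exact ⟨d₁ * (r - e₂ * s ^ 2) * (l * d₁ * A' ^ 2 - g * s ^ 2), by rw [hc]; ring⟩
      obtain ⟨c', rfl⟩ := hcl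
      have e : (l : ℤ) * c' ^ 2 = d₁ * (r - e₂ * s ^ 2) * (l * d₁ * A' ^ 2 - g * s ^ 2) := by
        have : (l : ℤ) * (l * c' ^ 2) = l * (d₁ * (r - e₂ * s ^ 2) *
            (l * d₁ * A' ^ 2 - g * s ^ 2)) := by
          linear_combination hc
        exact mul_left_cancel₀ hp0 this
      have h5 : (l : ℤ) ∣ d₁ * (r - e₂ * s ^ 2) * (l * d₁ * A' ^ 2 - g * s ^ 2) := ⟨_, e.symm⟩
      rcases hpp.dvd_or_dvd h5 with h6 | h6
      · rcases hpp.dvd_or_dvd h6 with h7 | h7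
        · exact hd h7
        · have h8 : (l : ℤ) ∣ e₂ * s ^ 2 := (dvd_sub_right hr).1 h7
          rcases hpp.dvd_or_dvd h8 with h9 | h9
          · exact h2 h9
          · exact hs (hpp.dvd_of_dvd_pow h9)
      · have h8 : (l : ℤ) ∣ g * s ^ 2 := by
          refine (dvd_sub_right ?_).1 h6
          exact ⟨d₁ * A' ^ 2, by ring⟩
        rcases hpp.dvd_or_dvd h8 with h9 | h9
        · exact hg h9
        · exact hs (hpp.dvd_of_dvd_pow h9)
    obtain ⟨c, hc⟩ := exists_c2 h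
    have hR3 : ¬ (l : ℤ) ∣ (r - l * g * s ^ 2) := by
      intro h4
      apply hr
      have : (l : ℤ) ∣ l * g * s ^ 2 := ⟨g * s ^ 2, by ring⟩
      exact (dvd_sub_left this).1 h4
    have hd2 : ¬ (l : ℤ) ∣ d₂ := by
      intro h4
      obtain ⟨u, hu⟩ := h4
      have hcl : (l : ℤ) ∣ c := by
        apply hpp.dvd_of_dvd_pow (n := 2)
        exact ⟨u * r * (r - l * g * s ^ 2), by rw [hc, hu]; ring⟩
      obtain ⟨c', rfl⟩ := hcl
      have e : (l : ℤ) * c' ^ 2 = u * r * (r - l * g * s ^ 2) := by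
        have : (l : ℤ) * (l * c' ^ 2) = l * (u * r * (r - l * g * s ^ 2)) := by
          rw [hu] at hc
          linear_combination hc
        exact mul_left_cancel₀ hp0 this
      have h5 : (l : ℤ) ∣ u * r * (r - l * g * s ^ 2) := ⟨_, e.symm⟩
      rcases hpp.dvd_or_dvd h5 with h6 | h6
      · rcases hpp.dvd_or_dvd h6 with h7 | h7
        · obtain ⟨u', rfl⟩ := h7
          exact hpp.not_unit (h.sq2 l ⟨u', by rw [hu]; ring⟩)
        · exact hr h7
      · exact hR3 h6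
    refine leg_one (x := c) (y := r) hd2 hr ?_
    rw [hc]
    exact ⟨d₂ * r * (g * s ^ 2), by ring⟩

end Pool.Agent.NJ.H81
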