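import Pool.Agent.Helper81_NJ.Tools

set_option autoImplicit false

/-!
# Squad NJ, module ST2
-/

namespace Pool.Agent.NJ.H81

/-- **ST2** -/
theorem st2 : ST2Stmt := by
  intro e₂ e₃ d₁ d₂ r s w A B h p _ hp2 h2 h22 h3 hd
  have hp : p.Prime := Fact.out
  have hpp := prime_int hp
  have hp0 : (p : ℤ) ≠ 0 := hpp.ne_zero
  obtain ⟨c, hc⟩ := exists_c2 h
  by_cases hr : (p : ℤ) ∣ r
  · have hs := not_dvd_s h hp hr
    obtain ⟨f, rfl⟩ := h2
    obtain ⟨g, rfl⟩ := h3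
    obtain ⟨r', rfl⟩ := hr
    have hf : ¬ (p : ℤ) ∣ f := by
      rintro ⟨u, rfl⟩
      exact h22 ⟨u, by ring⟩
    -- p divides B
    have hB : (p : ℤ) ∣ B := by
      have : (p : ℤ) ∣ d₂ * B ^ 2 := ⟨r' - f * s ^ 2, by rw [← h.h2]; ring⟩
      rcases hpp.dvd_or_dvd this with h3 | h3
      · exact absurd h3 hd
      · exact hpp.dvd_of_dvd_pow h3
    obtain ⟨B', rfl⟩ := hB
    have e1 : r' - f * s ^ 2 = p * (d₂ * B' ^ 2) := by
      have : (p : ℤ) * (r' - f * s ^ 2) = p * (p * (d₂ * B' ^ 2)) := by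
        have := h.h2
        linear_combination this
      exact mul_left_cancel₀ hp0 this
    have hr' : ¬ (p : ℤ) ∣ r' := by
      intro h4
      have h5 : (p : ℤ) ∣ f * s ^ 2 := by
        have : (p : ℤ) ∣ r' - f * s ^ 2 := ⟨_, e1⟩
        exact (dvd_sub_right h4).1 this
      rcases hpp.dvd_or_dvd h5 with h6 | h6
      · exact hf h6
      · exact hs (hpp.dvd_of_dvd_pow h6)
    have hcp : (p : ℤ) ∣ c := by
      apply hpp.dvd_of_dvd_pow (n := 2)
      exact ⟨d₂ * r' * (p * r' - p ^ 2 * g * s ^ 2), by rw [hc]; ring⟩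
    obtain ⟨c', rfl⟩ := hcp
    have e2 : c' ^ 2 = d₂ * r' * (r' - p * g * s ^ 2) := by
      have : (p : ℤ) ^ 2 * c' ^ 2 = p ^ 2 * (d₂ * r' * (r' - p * g * s ^ 2)) := by
        linear_combination hc
      exact mul_left_cancel₀ (pow_ne_zero 2 hp0) this
    refine leg_one (x := c') (y := r') hd hr' ?_
    rw [e2]
    exact ⟨d₂ * r' * (g * s ^ 2), by ring⟩
  · -- r is a unit
    obtain ⟨f, rfl⟩ := h2
    obtain ⟨g, rfl⟩ := h3
    refine leg_one (x := c) (y := r) hd hr ?_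
    rw [hc]
    exact ⟨d₂ * r * (p * g * s ^ 2), by ring⟩

end Pool.Agent.NJ.H81
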