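import Pool.Agent.Helper32_NJ.Stmts

set_option autoImplicit false

/-!
# Squad NJ: tools for the local modules (helper81)
-/

namespace Pool.Agent.NJ.H81

variable {e₂ e₃ d₁ d₂ r s w A B : ℤ}

theorem prime_int {p : ℕ} (hp : p.Prime) : Prime (p : ℤ) := Nat.prime_iff_prime_int.mp hp

theorem B_ne (h : Pt e₂ e₃ d₁ d₂ r s w A B) : B ≠ 0 := by
  intro hB
  have h2 := h.h2
  rw [hB] at h2
  have : r - e₂ * s ^ 2 = 0 := by rw [h2]; ring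
  have he := h.eq
  rw [this] at he
  exact h.w0 (pow_eq_zero_iff (two_ne_zero) |>.1 (by rw [he]; ring))

theorem A_ne (h : Pt e₂ e₃ d₁ d₂ r s w A B) : A ≠ 0 := by
  intro hB
  have h2 := h.h1
  rw [hB] at h2
  have : r = 0 := by rw [h2]; ring
  have he := h.eq
  rw [this] at he
  exact h.w0 (pow_eq_zero_iff (two_ne_zero) |>.1 (by rw [he]; ring))

/-- `w = B c` with `c² = d₂ r R₃` -/
theorem exists_c2 (h : Pt e₂ e₃ d₁ d₂ r s w A B) :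
    ∃ c : ℤ, c ^ 2 = d₂ * r * (r - e₃ * s ^ 2) := by
  have hB := B_ne h
  have e : w ^ 2 = B ^ 2 * (d₂ * r * (r - e₃ * s ^ 2)) := by
    rw [h.eq, h.h2]; ring
  obtain ⟨c, rfl⟩ : B ∣ w := (Int.pow_dvd_pow_iff two_ne_zero).1 ⟨_, e⟩
  refine ⟨c, ?_⟩
  have : B ^ 2 * c ^ 2 = B ^ 2 * (d₂ * r * (r - e₃ * s ^ 2)) := by rw [← e]; ring
  exact mul_left_cancel₀ (pow_ne_zero 2 hB) this

/-- `w = A c` with `c² = d₁ R₂ R₃` -/
theorem exists_c1 (h : Pt e₂ e₃ d₁ d₂ r s w A B) :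
    ∃ c : ℤ, c ^ 2 = d₁ * (r - e₂ * s ^ 2) * (r - e₃ * s ^ 2) := by
  have hA := A_ne h
  have e : w ^ 2 = A ^ 2 * (d₁ * (r - e₂ * s ^ 2) * (r - e₃ * s ^ 2)) := by
    calc w ^ 2 = r * (r - e₂ * s ^ 2) * (r - e₃ * s ^ 2) := h.eq
      _ = (d₁ * A ^ 2) * (r - e₂ * s ^ 2) * (r - e₃ * s ^ 2) := by rw [← h.h1]
      _ = _ := by ring
  obtain ⟨c, rfl⟩ : A ∣ w := (Int.pow_dvd_pow_iff two_ne_zero).1 ⟨_, e⟩
  refine ⟨c, ?_⟩
  have : A ^ 2 * c ^ 2 = A ^ 2 * (d₁ * (r - e₂ * s ^ 2) * (r - e₃ * s ^ 2)) := by rw [← e]; ring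
  exact mul_left_cancel₀ (pow_ne_zero 2 hA) this

theorem not_dvd_s (h : Pt e₂ e₃ d₁ d₂ r s w A B) {p : ℕ} (hp : p.Prime) (hr : (p : ℤ) ∣ r) :
    ¬ (p : ℤ) ∣ s := by
  intro hs
  exact (prime_int hp).not_unit (h.cop.isUnit_of_dvd' hr hs)

theorem zne {p : ℕ} {a : ℤ} (h : ¬ (p : ℤ) ∣ a) : (a : ZMod p) ≠ 0 := by
  rwa [Ne, ZMod.intCast_zmod_eq_zero_iff_dvd]

theorem leg_one {p : ℕ} [Fact p.Prime] {a x y : ℤ} (ha : ¬ (p : ℤ) ∣ a) (hy : ¬ (p : ℤ) ∣ y)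
    (h : (p : ℤ) ∣ a * y ^ 2 - x ^ 2) : legendreSym p a = 1 := by
  rw [legendreSym.eq_one_iff p (zne ha)]
  have hy' := zne hy
  have h' : (a : ZMod p) * (y : ZMod p) ^ 2 = (x : ZMod p) ^ 2 := by
    have := (ZMod.intCast_zmod_eq_zero_iff_dvd _ p).2 h
    push_cast at this
    exact sub_eq_zero.1 this
  refine ⟨(x : ZMod p) / y, ?_⟩
  field_simp
  exact h'

theorem leg_congr {p : ℕ} [Fact p.Prime] {a b : ℤ} (h : (p : ℤ) ∣ a - b) :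
    legendreSym p a = legendreSym p b := by
  have h' : (a : ZMod p) = (b : ZMod p) := by
    have := (ZMod.intCast_zmod_eq_zero_iff_dvd _ p).2 h
    push_cast at this
    exact sub_eq_zero.1 this
  simp only [legendreSym, h']

/-- `d B² ≡ e s²`, `e s` invertible -/
theorem leg_eq {p : ℕ} [Fact p.Prime] {d B e s : ℤ} (he : ¬ (p : ℤ) ∣ e) (hs : ¬ (p : ℤ) ∣ s)
    (h : (p : ℤ) ∣ d * B ^ 2 - e * s ^ 2) : legendreSym p d = legendreSym p e := by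
  have hpp := prime_int (Fact.out : p.Prime)
  have hB : ¬ (p : ℤ) ∣ B := by
    intro hB
    have h1 : (p : ℤ) ∣ d * B ^ 2 := Dvd.dvd.mul_left (Dvd.dvd.pow hB two_ne_zero) _
    have h2 : (p : ℤ) ∣ e * s ^ 2 := (dvd_sub_right h1).1 h
    rcases hpp.dvd_or_dvd h2 with h3 | h3
    · exact he h3
    · exact hs (hpp.dvd_of_dvd_pow h3)
  have e1 := leg_congr h
  rwa [legendreSym.mul, legendreSym.mul, legendreSym.sq_one' p (zne hB),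
    legendreSym.sq_one' p (zne hs), mul_one, mul_one] at e1

end Pool.Agent.NJ.H81
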